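import Mathlib
import Pool.Agent.H633R3.Corr4
import Pool.Agent.H767R2.Weyl

/-!
Averages of products of polynomial phases along the configuration of `Pool.Agent.H633R3.Corr4`.
-/

set_option autoImplicit false

namespace Pool.Agent.Y844.CP

open Finset Filter Topology Polynomial
open Pool.Agent.H633R3.Corr

theorem avg_prod' {I J : Type*} [Fintype I] [DecidableEq I] [Fintype J] [DecidableEq J] (o : J)
    (g : I → J → ℂ) (v : I → J → ℕ → ℂ) (hv : ∀ c N, v c o N = 1)
    (hz : ∀ u : I → J, u ≠ (fun _ => o) →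
      Tendsto (fun X : ℕ => (∑ N ∈ range X, ∏ c, v c (u c) N) / (X : ℂ)) atTop (𝓝 0)) :
    Tendsto (fun X : ℕ => (∑ N ∈ range X, ∏ c, ∑ j, g c j * v c j N) / (X : ℂ)) atTop
      (𝓝 (∏ c, g c o)) := by
  have key : ∀ N : ℕ, ∏ c, ∑ j, g c j * v c j N =
      ∑ u : I → J, (∏ c, g c (u c)) * ∏ c, v c (u c) N := by
    intro N
    rw [Finset.prod_univ_sum, Fintype.piFinset_univ]
    refine Finset.sum_congr rfl fun u _ => ?_
    rw [Finset.prod_mul_distrib]
  have h1 : ∀ X : ℕ, (∑ N ∈ range X, ∏ c, ∑ j, g c j * v c j N) / (X : ℂ) =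
      ∑ u : I → J, (∏ c, g c (u c)) * ((∑ N ∈ range X, ∏ c, v c (u c) N) / (X : ℂ)) := by
    intro X
    simp_rw [key]
    rw [Finset.sum_comm, Finset.sum_div]
    refine Finset.sum_congr rfl fun u _ => ?_
    rw [← Finset.mul_sum, mul_div_assoc]
  simp_rw [h1]
  have h2 : (∏ c, g c o) = ∑ u : I → J, (∏ c, g c (u c)) *
      (if u = (fun _ => o) then 1 else 0) := by
    rw [Finset.sum_eq_single (fun _ => o)]
    · simp
    · intro u _ hu
      simp [hu]
    · intro h
      exact absurd (Finset.mem_univ _) h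
  rw [h2]
  refine tendsto_finsetSum _ fun u _ => ?_
  refine Tendsto.const_mul _ ?_
  by_cases hu0 : u = (fun _ => o)
  · subst hu0
    simp only [if_pos]
    simp_rw [hv, Finset.prod_const_one]
    exact cesaro_one
  · rw [if_neg hu0]
    exact hz u hu0

/-- the polynomial `x ↦ P (a + E x)` -/
noncomputable def shiftP (P : ℝ[X]) (a E : ℝ) : ℝ[X] := (Polynomial.taylor a P).comp (C E * X)

theorem shiftP_eval (P : ℝ[X]) (a E x : ℝ) : (shiftP P a E).eval x = P.eval (E * x + a) := by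
  simp [shiftP, Polynomial.taylor_eval]

theorem shiftP_coeff (P : ℝ[X]) (a E : ℝ) (n : ℕ) :
    (shiftP P a E).coeff n = (Polynomial.hasseDeriv n P).eval a * E ^ n := by
  rw [shiftP, Polynomial.comp_C_mul_X_coeff, Polynomial.taylor_coeff]

theorem rat_aux (c : ℕ → ℝ) (hc : ∀ s, 2 ≤ s → ∃ ρ : ℚ, c s = ρ) (a b : ℕ) (n : ℕ) :
    ∃ ρ : ℚ, ∑ s ∈ range (n + 2), c s * ((a : ℝ) ^ s - (b : ℝ) ^ s) = c 1 * ((a : ℝ) - b) + ρ := by
  induction n with
  | zero => exact ⟨0, by simp [Finset.sum_range_succ]⟩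
  | succ n ih =>
    obtain ⟨ρ, hρ⟩ := ih
    obtain ⟨σ, hσ⟩ := hc (n + 2) (by omega)
    refine ⟨ρ + σ * ((a : ℚ) ^ (n + 2) - (b : ℚ) ^ (n + 2)), ?_⟩
    rw [Finset.sum_range_succ, hρ, hσ]
    push_cast
    ring

theorem hasse_diff (P : ℝ[X]) (t : ℕ) (ht : 1 ≤ t) (hr : ∀ s, t < s → ∃ ρ : ℚ, P.coeff s = ρ)
    (a b : ℕ) :
    ∃ ρ : ℚ, (hasseDeriv (t - 1) P).eval (a : ℝ) - (hasseDeriv (t - 1) P).eval (b : ℝ) =
      t * P.coeff t * ((a : ℝ) - b) + ρ := by
  set H := hasseDeriv (t - 1) P with hH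
  have hcoef : ∀ s, H.coeff s = ((s + (t - 1)).choose (t - 1) : ℕ) * P.coeff (s + (t - 1)) := by
    intro s
    rw [hH, hasseDeriv_coeff]
  have h1 : H.coeff 1 = t * P.coeff t := by
    rw [hcoef]
    have e1 : 1 + (t - 1) = t := by omega
    rw [e1]
    congr 1
    have : t.choose (t - 1) = t := by
      obtain ⟨m, rfl⟩ := Nat.exists_eq_add_of_le ht
      have : 1 + m - 1 = m := by omega
      rw [this, add_comm 1 m]
      exact Nat.choose_succ_self_right m
    exact_mod_cast this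
  obtain ⟨ρ, hρ⟩ := rat_aux (fun s => H.coeff s) (by
    intro s hs
    obtain ⟨σ, hσ⟩ := hr (s + (t - 1)) (by omega)
    refine ⟨((s + (t - 1)).choose (t - 1) : ℕ) * σ, ?_⟩
    simp only [hcoef, hσ]
    push_cast
    ring) a b H.natDegree
  refine ⟨ρ, ?_⟩
  rw [← h1, ← hρ, Polynomial.eval_eq_sum_range' (show H.natDegree < H.natDegree + 2 by omega),
    Polynomial.eval_eq_sum_range' (show H.natDegree < H.natDegree + 2 by omega),
    ← Finset.sum_sub_distrib]
  refine Finset.sum_congr rfl fun s _ => ?_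
  ring

theorem sum_pow_ne_zero (q r R k : ℕ) (hk : 1 ≤ k)
    (u : (Fin r → Fin (2 * q)) → ℤ) (hu : ∀ c, |u c| ≤ R) (hne : u ≠ 0) :
    ∑ c, u c * (EE q r R c : ℤ) ^ k ≠ 0 := by
  classical
  intro h0
  apply hne
  funext c
  have h1 : ((del q r R c : ℕ) : ℤ) ∣ u c * (EE q r R c : ℤ) ^ k := by
    rw [← Finset.add_sum_erase _ _ (Finset.mem_univ c)] at h0
    have h2 : ((del q r R c : ℕ) : ℤ) ∣
        ∑ c' ∈ Finset.univ.erase c, u c' * (EE q r R c' : ℤ) ^ k := by
      refine Finset.dvd_sum fun c' hc' => ?_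
      refine Dvd.dvd.mul_left (dvd_pow ?_ (by omega)) _
      exact_mod_cast del_dvd_EE q r R (Finset.ne_of_mem_erase hc').symm
    exact (dvd_add_left h2).mp (h0 ▸ dvd_zero _)
  have h2 : ((del q r R c : ℕ) : ℤ) ∣ u c := by
    have hc : IsCoprime ((del q r R c : ℕ) : ℤ) ((EE q r R c : ℤ) ^ k) :=
      (Nat.isCoprime_iff_coprime.mpr (EE_coprime q r R c).symm).pow_right
    exact hc.dvd_of_dvd_mul_right h1
  refine Int.eq_zero_of_abs_lt_dvd h2 ?_
  have h3 := hu c
  have h4 : (R : ℤ) < (del q r R c : ℕ) := by exact_mod_cast del_gt q r R c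
  omega

theorem ee_eq (t : ℝ) : Pool.Agent.H767R2.ee t = e t := by
  unfold Pool.Agent.H767R2.ee e
  congr 1
  ring

/-- off-diagonal pairs, or nothing -/
abbrev JJ (L : ℕ) := Option {p : Fin L × Fin L // p.1 ≠ p.2}

/-- the products -/
noncomputable def vv {I : Type} {L : ℕ} (w : ℕ → ℂ) (n0 E : I → ℕ) (c : I) (j : JJ L) (N : ℕ) : ℂ :=
  match j with
  | none => 1
  | some p => w (n0 c + E c * N + 1 + (p.1.1 : ℕ)) * (starRingEnd ℂ) (w (n0 c + E c * N + 1 + (p.1.2 : ℕ)))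

/-- **Dissociated averages of polynomial phases vanish.** -/
theorem poly_avg (q r L : ℕ) (P : ℝ[X]) (t : ℕ) (ht : 2 ≤ t) (hirr : Irrational (P.coeff t))
    (hr : ∀ s, t < s → ∃ ρ : ℚ, P.coeff s = ρ) (n0 : (Fin r → Fin (2 * q)) → ℕ)
    (u : (Fin r → Fin (2 * q)) → JJ L) (hu : u ≠ fun _ => none) :
    Tendsto (fun X : ℕ => (∑ N ∈ range X,
      ∏ c, vv (fun k : ℕ => e (P.eval (k : ℝ))) n0 (EE q r L) c (u c) N) / (X : ℂ)) atTop (𝓝 0) := by
  classical
  set E := EE q r L with hE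
  -- the exponent polynomial
  let qq : (Fin r → Fin (2 * q)) → ℝ[X] := fun c => match u c with
    | none => 0
    | some p => shiftP P ((n0 c + 1 + (p.1.1 : ℕ) : ℕ) : ℝ) (E c) -
        shiftP P ((n0 c + 1 + (p.1.2 : ℕ) : ℕ) : ℝ) (E c)
  let δ : (Fin r → Fin (2 * q)) → ℤ := fun c => match u c with
    | none => 0
    | some p => (p.1.1 : ℤ) - (p.1.2 : ℤ)
  have hprod : ∀ N : ℕ, ∏ c, vv (fun k : ℕ => e (P.eval (k : ℝ))) n0 E c (u c) N =
      e ((∑ c, qq c).eval (N : ℝ)) := by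
    intro N
    rw [Polynomial.eval_finset_sum, e_sum]
    refine Finset.prod_congr rfl fun c _ => ?_
    simp only [qq]
    cases hc : u c with
    | none => simp [vv, e_zero]
    | some p =>
      simp only [vv]
      rw [Polynomial.eval_sub, shiftP_eval, shiftP_eval, sub_eq_add_neg, e_add, conj_e]
      congr 3
      · congr 1
        push_cast
        ring
      · congr 2
        push_cast
        ring
  have hcoef : ∀ c, ∃ ρ : ℚ, (qq c).coeff (t - 1) = (t * P.coeff t * (δ c : ℝ) + ρ) * (E c : ℝ) ^ (t - 1) := by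
    intro c
    simp only [qq, δ]
    cases hc : u c with
    | none => exact ⟨0, by simp⟩
    | some p =>
      obtain ⟨ρ, hρ⟩ := hasse_diff P t (by omega) hr (n0 c + 1 + (p.1.1 : ℕ)) (n0 c + 1 + (p.1.2 : ℕ))
      refine ⟨ρ, ?_⟩
      simp only
      rw [Polynomial.coeff_sub, shiftP_coeff, shiftP_coeff, ← sub_mul, hρ]
      congr 2
      push_cast
      ring
  choose ρ hρ using hcoef
  have hQ : (∑ c, qq c).coeff (t - 1) = P.coeff t * (((t : ℤ) * ∑ c, δ c * (E c : ℤ) ^ (t - 1) : ℤ) : ℝ) +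
      ((∑ c, ρ c * (E c : ℚ) ^ (t - 1) : ℚ) : ℝ) := by
    rw [Polynomial.finset_sum_coeff, Finset.sum_congr rfl fun c _ => hρ c]
    push_cast
    rw [Finset.mul_sum, Finset.mul_sum, ← Finset.sum_add_distrib]
    refine Finset.sum_congr rfl fun c _ => ?_
    ring
  have hδ : δ ≠ 0 := by
    intro h0
    apply hu
    funext c
    have h1 := congrFun h0 c
    simp only [δ] at h1
    cases hc : u c with
    | none => rfl
    | some p =>
      rw [hc] at h1
      simp only [Pi.zero_apply] at h1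
      exact absurd (Fin.ext (by omega)) p.2
  have hδL : ∀ c, |δ c| ≤ L := by
    intro c
    simp only [δ]
    cases hc : u c with
    | none => simp
    | some p =>
      have h1 := p.1.1.2
      have h2 := p.1.2.2
      simp only
      rw [abs_le]
      constructor <;> omega
  have hne := sum_pow_ne_zero q r L (t - 1) (by omega) δ hδL hδ
  have hQirr : Irrational ((∑ c, qq c).coeff (t - 1)) := by
    rw [hQ]
    exact (hirr.mul_intCast (mul_ne_zero (by omega) hne)).add_ratCast _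
  have hw := Pool.Agent.H767R2.weyl_poly (∑ c, qq c) ⟨t - 1, by omega, hQirr⟩
  refine hw.congr fun X => ?_
  unfold Pool.Agent.H767R2.cav
  rw [one_div, inv_mul_eq_div]
  congr 1
  refine Finset.sum_congr rfl fun N _ => ?_
  rw [hprod]
  exact ee_eq _

end Pool.Agent.Y844.CP
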