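import Mathlib
import Pool.Agent.Y844.CP.Avg

/-!
Uniform unboundedness of correlations along homogeneous progressions, weighted with a polynomial phase
which has an irrational coefficient of degree at least two.
-/

set_option autoImplicit false

namespace Pool.Agent.Y844.CP

open Finset Filter Topology Polynomial
open Pool.Agent.H633R3.Corr

/-- the majorant -/
noncomputable def GW {L : ℕ} (w : ℕ → ℂ) (A : Fin L → ℂ) (B : ℝ) (m : ℕ) : ℝ :=
  ((L : ℝ) ^ 2 - ‖∑ i : Fin L, w (m + 1 + (i : ℕ)) * A i‖ ^ 2) / ((L : ℝ) ^ 2 - B ^ 2)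

/-- coefficients -/
noncomputable def gw {L : ℕ} (A : Fin L → ℂ) (B : ℝ) (j : JJ L) : ℂ :=
  match j with
  | none => ((L : ℂ) ^ 2 - L) / ((L : ℂ) ^ 2 - (B : ℂ) ^ 2)
  | some p => -(A p.1.1 * (starRingEnd ℂ) (A p.1.2)) / ((L : ℂ) ^ 2 - (B : ℂ) ^ 2)

theorem GW_expand {I : Type} {L : ℕ} (w : ℕ → ℂ) (hw : ∀ k, ‖w k‖ = 1) (A : Fin L → ℂ) (hA : ∀ i, ‖A i‖ = 1)
    (B : ℝ) (n0 E : I → ℕ) (c : I) (N : ℕ) :
    (GW w A B (n0 c + E c * N) : ℂ) = ∑ j : JJ L, gw A B j * vv w n0 E c j N := by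
  classical
  set m := n0 c + E c * N with hm
  have h1 : ((‖∑ i : Fin L, w (m + 1 + (i : ℕ)) * A i‖ ^ 2 : ℝ) : ℂ) =
      ∑ p : Fin L × Fin L, (w (m + 1 + (p.1 : ℕ)) * A p.1) *
        (starRingEnd ℂ) (w (m + 1 + (p.2 : ℕ)) * A p.2) := by
    rw [← Complex.normSq_eq_norm_sq, ← Complex.mul_conj, map_sum, Finset.sum_mul_sum,
      ← Finset.univ_product_univ, Finset.sum_product]
  have h2 : ∑ p : Fin L × Fin L, (w (m + 1 + (p.1 : ℕ)) * A p.1) *
        (starRingEnd ℂ) (w (m + 1 + (p.2 : ℕ)) * A p.2) =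
      L + ∑ p : {p : Fin L × Fin L // p.1 ≠ p.2}, (w (m + 1 + (p.1.1 : ℕ)) * A p.1.1) *
        (starRingEnd ℂ) (w (m + 1 + (p.1.2 : ℕ)) * A p.1.2) := by
    rw [← Fintype.sum_subtype_add_sum_subtype (fun p : Fin L × Fin L => p.1 = p.2)]
    congr 1
    have h3 : ∀ p : {p : Fin L × Fin L // p.1 = p.2}, (w (m + 1 + (p.1.1 : ℕ)) * A p.1.1) *
        (starRingEnd ℂ) (w (m + 1 + (p.1.2 : ℕ)) * A p.1.2) = 1 := by
      intro p
      rw [p.2, Complex.mul_conj, Complex.normSq_eq_norm_sq, norm_mul, hw, hA]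
      simp
    rw [Finset.sum_congr rfl fun p _ => h3 p]
    rw [Finset.sum_const, Finset.card_univ, nsmul_eq_mul, mul_one]
    congr 1
    have e1 : Fintype.card {p : Fin L × Fin L // p.1 = p.2} = Fintype.card (Fin L) :=
      Fintype.card_congr
        { toFun := fun p => p.1.1
          invFun := fun i => ⟨(i, i), rfl⟩
          left_inv := fun p => by
            apply Subtype.ext
            exact Prod.ext rfl p.2
          right_inv := fun i => rfl }
    rw [e1, Fintype.card_fin]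
  rw [Fintype.sum_option]
  simp only [gw, vv]
  unfold GW
  push_cast
  have h4 : ((‖∑ i : Fin L, w (m + 1 + (i : ℕ)) * A i‖ : ℝ) : ℂ) ^ 2 =
      ((‖∑ i : Fin L, w (m + 1 + (i : ℕ)) * A i‖ ^ 2 : ℝ) : ℂ) := by push_cast; rfl
  rw [h4, h1, h2, mul_one, sub_div, add_div, sub_div]
  have h5 : ∑ x : {p : Fin L × Fin L // p.1 ≠ p.2}, -(A x.1.1 * (starRingEnd ℂ) (A x.1.2)) /
      ((L : ℂ) ^ 2 - (B : ℂ) ^ 2) *
        (w (m + 1 + (x.1.1 : ℕ)) * (starRingEnd ℂ) (w (m + 1 + (x.1.2 : ℕ)))) =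
      - ((∑ p : {p : Fin L × Fin L // p.1 ≠ p.2}, (w (m + 1 + (p.1.1 : ℕ)) * A p.1.1) *
        (starRingEnd ℂ) (w (m + 1 + (p.1.2 : ℕ)) * A p.1.2)) / ((L : ℂ) ^ 2 - (B : ℂ) ^ 2)) := by
    rw [Finset.sum_div, ← Finset.sum_neg_distrib]
    refine Finset.sum_congr rfl fun p _ => ?_
    rw [map_mul]
    ring
  rw [h5]
  ring

theorem GW_nonneg {L : ℕ} (w : ℕ → ℂ) (hw : ∀ k, ‖w k‖ = 1) (A : Fin L → ℂ) (hA : ∀ i, ‖A i‖ = 1) (B : ℝ)
    (hB : 0 < (L : ℝ) ^ 2 - B ^ 2) (m : ℕ) : 0 ≤ GW w A B m := by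
  unfold GW
  refine div_nonneg ?_ hB.le
  have h1 : ‖∑ i : Fin L, w (m + 1 + (i : ℕ)) * A i‖ ≤ L := by
    refine (norm_sum_le _ _).trans ?_
    refine (Finset.sum_le_sum (g := fun _ => (1 : ℝ)) fun i _ => ?_).trans ?_
    · rw [norm_mul, hw, hA, one_mul]
    · simp
  have h2 := pow_le_pow_left₀ (norm_nonneg _) h1 2
  linarith

theorem GW_ge_one {L : ℕ} (w : ℕ → ℂ) (A : Fin L → ℂ) (B : ℝ)
    (hB : 0 < (L : ℝ) ^ 2 - B ^ 2) (m : ℕ)
    (h : ‖∑ i : Fin L, w (m + 1 + (i : ℕ)) * A i‖ ≤ B) :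
    1 ≤ GW w A B m := by
  unfold GW
  rw [one_le_div hB]
  have h2 := pow_le_pow_left₀ (norm_nonneg _) h 2
  linarith

/-- the hypothesis on the weight -/
def Dissoc (w : ℕ → ℂ) : Prop :=
  ∀ (q r L : ℕ) (n0 : (Fin r → Fin (2 * q)) → ℕ) (u : (Fin r → Fin (2 * q)) → JJ L), u ≠ (fun _ => none) →
    Tendsto (fun X : ℕ => (∑ N ∈ range X, ∏ c, vv w n0 (EE q r L) c (u c) N) / (X : ℂ)) atTop (𝓝 0)

theorem avg_GW (q r L : ℕ) (w : ℕ → ℂ) (hw : ∀ k, ‖w k‖ = 1) (hD : Dissoc w) (B : ℝ)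
    (A : (Fin r → Fin (2 * q)) → Fin L → ℂ) (hA : ∀ c i, ‖A c i‖ = 1)
    (N0 : (Fin r → Fin (2 * q)) → ℕ) :
    Tendsto (fun X : ℕ => (∑ N ∈ range X, ∏ c, GW w (A c) B (N0 c + EE q r L c * N)) / (X : ℝ))
      atTop (𝓝 ((((L : ℝ) ^ 2 - L) / ((L : ℝ) ^ 2 - B ^ 2)) ^ ((2 * q) ^ r))) := by
  classical
  have h1 := avg_prod' (I := Fin r → Fin (2 * q)) (J := JJ L) none (fun c => gw (A c) B)
    (vv w N0 (EE q r L)) (fun c N => rfl) (fun u hu => hD q r L N0 u hu)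
  have h2 : ∀ X : ℕ, (∑ N ∈ range X, ∏ c, ∑ j : JJ L, gw (A c) B j * vv w N0 (EE q r L) c j N) / (X : ℂ) =
      (((∑ N ∈ range X, ∏ c, GW w (A c) B (N0 c + EE q r L c * N)) / (X : ℝ) : ℝ) : ℂ) := by
    intro X
    push_cast
    congr 1
    refine Finset.sum_congr rfl fun N _ => Finset.prod_congr rfl fun c _ => ?_
    rw [GW_expand w hw (A c) (hA c)]
  simp_rw [h2] at h1
  have h3 : (∏ c : Fin r → Fin (2 * q), gw (A c) B none) =
      (((((L : ℝ) ^ 2 - L) / ((L : ℝ) ^ 2 - B ^ 2)) ^ ((2 * q) ^ r) : ℝ) : ℂ) := by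
    simp only [gw]
    rw [Finset.prod_const,
      Finset.card_univ, Fintype.card_fun, Fintype.card_fin, Fintype.card_fin, Complex.ofReal_pow]
    push_cast
    rfl
  rw [h3] at h1
  exact (Complex.continuous_re.tendsto _).comp h1

theorem window_bound' {F : ℕ → ℂ} {C : ℝ} {Z : ℕ} (hC0 : 0 ≤ C)
    (hC : ∀ n : ℕ, 1 ≤ n → n ≤ Z → ‖∑ k ∈ Finset.Icc 1 n, F k‖ ≤ C)
    (N L : ℕ) (hZ : N + L ≤ Z) : ‖∑ i : Fin L, F (N + 1 + (i : ℕ))‖ ≤ 2 * C := by
  have h1 : ∀ n : ℕ, n ≤ Z → ‖∑ k ∈ range n, F (k + 1)‖ ≤ C := by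
    intro n hn'
    rcases Nat.eq_zero_or_pos n with rfl | hn
    · simpa using hC0
    · have := hC n hn hn'
      have h2 : ∑ k ∈ Finset.Icc 1 n, F k = ∑ k ∈ range n, F (k + 1) := by
        rw [Finset.range_eq_Ico, Finset.sum_Ico_add' F 0 n 1]
        rfl
      rwa [h2] at this
  have h2 := Finset.sum_range_add (fun k => F (k + 1)) N L
  have h3 : ∑ i : Fin L, F (N + 1 + (i : ℕ)) = ∑ i ∈ range L, F (N + i + 1) := by
    rw [Finset.sum_range]
    refine Finset.sum_congr rfl fun i _ => ?_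
    congr 1
    ring
  rw [h3]
  have h4 : ∑ i ∈ range L, F (N + i + 1) =
      ∑ k ∈ range (N + L), F (k + 1) - ∑ k ∈ range N, F (k + 1) := by
    rw [h2]
    ring
  rw [h4]
  refine (norm_sub_le _ _).trans ?_
  linarith [h1 (N + L) hZ, h1 N (by omega)]

/-- **Uniform unboundedness** for dissociated weights. -/
theorem uniform {l : ℕ} (h : Fin l → ℕ) (w : ℕ → ℂ) (hw : ∀ k, ‖w k‖ = 1) (hD : Dissoc w) (C : ℝ) :
    ∃ Z : ℕ, ∀ a : Fin l → ℕ → Circle, ∃ d n : ℕ, 1 ≤ d ∧ d ≤ Z ∧ 1 ≤ n ∧ n ≤ Z ∧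
      C < ‖∑ k ∈ Finset.Icc 1 n, w k * ∏ j, (a j (d * (k + h j)) : ℂ)‖ := by
  classical
  wlog hC0 : 0 ≤ C generalizing C
  · obtain ⟨Z, hZ⟩ := this 0 le_rfl
    refine ⟨Z, fun a => ?_⟩
    obtain ⟨d, n, h1, h2, h3, h4, h5⟩ := hZ a
    exact ⟨d, n, h1, h2, h3, h4, by linarith [not_le.mp hC0]⟩
  set B : ℝ := 2 * C + 1 with hB
  obtain ⟨L, hL⟩ := exists_nat_gt (B ^ 2)
  have hB1 : 1 ≤ B := by linarith
  have hL1 : (1 : ℝ) < L := by nlinarith
  set H : ℕ := ∑ j, h j with hH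
  have hH' : ∀ j, h j ≤ H := fun j =>
    Finset.single_le_sum (f := h) (fun _ _ => Nat.zero_le _) (Finset.mem_univ j)
  set q : ℕ := L + H + 1 with hq
  have hε : (0 : ℝ) < 1 / (L * l + 1) := by positivity
  obtain ⟨T, hT⟩ := exists_net hε
  choose τ hτT hτ using hT
  have hden : 0 < (L : ℝ) ^ 2 - B ^ 2 := by nlinarith
  set ρ : ℝ := ((L : ℝ) ^ 2 - L) / ((L : ℝ) ^ 2 - B ^ 2) with hρ
  have hρ0 : 0 ≤ ρ := div_nonneg (by nlinarith) hden.le
  have hρ1 : ρ < 1 := by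
    rw [hρ, div_lt_one hden]
    linarith
  obtain ⟨r, hr⟩ := exists_r T.card (l * q) q (by omega) hρ0 hρ1
  obtain ⟨m0, hm0⟩ := exists_crt q r L
  choose N0 hN0 using hm0
  have hs : ∀ (i : Fin L) (j : Fin l), 1 + (i : ℕ) + h j < q := by
    intro i j
    have h1 := i.2
    have h2 := hH' j
    omega
  let Y := (Fin l × Fin q × (Fin r → Fin (2 * q - 1))) → {x // x ∈ T}
  let At : Y → (Fin r → Fin (2 * q)) → Fin L → ℂ := fun y c i =>
    ∏ j, (((y (j, ⟨1 + i + h j, hs i j⟩,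
      fun t => comp q ⟨1 + i + h j, hs i j⟩ (c t))) : Circle) : ℂ)
  have hAt : ∀ y c i, ‖At y c i‖ = 1 := by
    intro y c i
    simp only [At]
    rw [norm_prod]
    exact Finset.prod_eq_one fun j _ => Circle.norm_coe _
  -- the limit of the averages
  have hlim : Tendsto (fun X : ℕ => ∑ y : Y, (∑ N ∈ range X,
      ∏ c, GW w (At y c) B (N0 c + EE q r L c * N)) / (X : ℝ))
      atTop (𝓝 (∑ _y : Y, ρ ^ ((2 * q) ^ r))) :=
    tendsto_finsetSum _ fun y _ => avg_GW q r L w hw hD B (At y) (hAt y) N0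
  have hcard : Fintype.card Y = T.card ^ (l * q * (2 * q - 1) ^ r) := by
    simp only [Y, Fintype.card_fun, Fintype.card_prod, Fintype.card_fin, Fintype.card_coe]
    congr 1
    ring
  have hlt : ∑ _y : Y, ρ ^ ((2 * q) ^ r) < 1 := by
    rw [Finset.sum_const, Finset.card_univ, nsmul_eq_mul, hcard]
    push_cast
    exact hr
  obtain ⟨X, hX0, hX⟩ := ((eventually_gt_atTop 0).and (hlim.eventually (gt_mem_nhds hlt))).exists
  have hX' : (0 : ℝ) < X := by exact_mod_cast hX0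
  -- the size of all dilations and windows
  set Z : ℕ := ∑ c : Fin r → Fin (2 * q), (del q r L c + (N0 c + EE q r L c * X + L)) with hZ
  have hZc : ∀ c, del q r L c + (N0 c + EE q r L c * X + L) ≤ Z := fun c =>
    Finset.single_le_sum (f := fun c => del q r L c + (N0 c + EE q r L c * X + L))
      (fun _ _ => Nat.zero_le _) (Finset.mem_univ c)
  refine ⟨Z, fun a => ?_⟩
  by_contra hcon
  push Not at hcon
  have hpat : ∀ N < X, ∃ y : Y, ∀ c, 1 ≤ GW w (At y c) B (N0 c + EE q r L c * N) := by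
    intro N hN
    refine ⟨fun p => ⟨τ (a p.1 (pos q r L m0 N p.2.1 p.2.2)), hτT _⟩, fun c => ?_⟩
    refine GW_ge_one _ _ _ hden _ ?_
    have hZ1 := hZc c
    have hEN : EE q r L c * N ≤ EE q r L c * X := Nat.mul_le_mul_left _ hN.le
    have hdp := del_pos q r L c
    have hw' := window_bound' (F := fun k => w k *
      ∏ j, (a j (del q r L c * (k + h j)) : ℂ)) (Z := Z) hC0
      (fun n hn hnZ => hcon (del q r L c) n hdp (by omega) hn hnZ)
      (N0 c + EE q r L c * N) L (by omega)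
    have hdiff : ‖(∑ i : Fin L, w (N0 c + EE q r L c * N + 1 + (i : ℕ)) *
        At (fun p => ⟨τ (a p.1 (pos q r L m0 N p.2.1 p.2.2)), hτT _⟩) c i) -
        ∑ i : Fin L, w (N0 c + EE q r L c * N + 1 + (i : ℕ)) *
          ∏ j, (a j (del q r L c *
            (N0 c + EE q r L c * N + 1 + (i : ℕ) + h j)) : ℂ)‖ ≤ 1 := by
      rw [← Finset.sum_sub_distrib]
      refine (norm_sum_le _ _).trans ?_
      have hterm : ∀ i : Fin L, ‖w (N0 c + EE q r L c * N + 1 + (i : ℕ)) *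
          At (fun p => ⟨τ (a p.1 (pos q r L m0 N p.2.1 p.2.2)), hτT _⟩) c i -
          w (N0 c + EE q r L c * N + 1 + (i : ℕ)) *
          ∏ j, (a j (del q r L c *
            (N0 c + EE q r L c * N + 1 + (i : ℕ) + h j)) : ℂ)‖ ≤
          l * (1 / (L * l + 1)) := by
        intro i
        rw [← mul_sub, norm_mul, hw, one_mul]
        have hp := norm_prod_sub_le (Finset.univ : Finset (Fin l))
          (fun j => τ (a j (pos q r L m0 N ⟨1 + i + h j, hs i j⟩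
            (fun t => comp q ⟨1 + i + h j, hs i j⟩ (c t)))))
          (fun j => a j (pos q r L m0 N ⟨1 + i + h j, hs i j⟩
            (fun t => comp q ⟨1 + i + h j, hs i j⟩ (c t))))
          (ε := 1 / (L * l + 1)) (by
            intro j _
            rw [norm_sub_rev]
            exact (hτ _).le)
        rw [Finset.card_univ, Fintype.card_fin] at hp
        refine le_of_eq_of_le ?_ hp
        congr 2
        refine Finset.prod_congr rfl fun j _ => ?_
        rw [← pos_eq q r L hN0 N ⟨1 + i + h j, hs i j⟩ c]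
        simp only
        congr 3
        ring
      refine (Finset.sum_le_sum fun i _ => hterm i).trans ?_
      rw [Finset.sum_const, Finset.card_univ, Fintype.card_fin, nsmul_eq_mul]
      have hpos : (0 : ℝ) < L * l + 1 := by positivity
      rw [← mul_assoc, mul_one_div, div_le_one hpos]
      linarith
    have htri := norm_le_norm_add_norm_sub'
      (∑ i : Fin L, w (N0 c + EE q r L c * N + 1 + (i : ℕ)) *
        At (fun p => ⟨τ (a p.1 (pos q r L m0 N p.2.1 p.2.2)), hτT _⟩) c i)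
      (∑ i : Fin L, w (N0 c + EE q r L c * N + 1 + (i : ℕ)) *
          ∏ j, (a j (del q r L c *
            (N0 c + EE q r L c * N + 1 + (i : ℕ) + h j)) : ℂ))
    linarith
  have hge : 1 ≤ ∑ y : Y, (∑ N ∈ range X,
      ∏ c, GW w (At y c) B (N0 c + EE q r L c * N)) / (X : ℝ) := by
    rw [← Finset.sum_div, le_div_iff₀ hX', one_mul, Finset.sum_comm]
    have h1 : ∀ N ∈ range X, (1 : ℝ) ≤ ∑ y : Y,
        ∏ c, GW w (At y c) B (N0 c + EE q r L c * N) := by
      intro N hN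
      obtain ⟨y, hy⟩ := hpat N (Finset.mem_range.mp hN)
      have h2 : (1 : ℝ) ≤ ∏ c, GW w (At y c) B (N0 c + EE q r L c * N) := by
        rw [← Finset.prod_const_one (s := (Finset.univ : Finset (Fin r → Fin (2 * q))))]
        exact Finset.prod_le_prod (fun _ _ => zero_le_one) fun c _ => hy c
      refine h2.trans ?_
      exact Finset.single_le_sum
        (f := fun y : Y => ∏ c, GW w (At y c) B (N0 c + EE q r L c * N))
        (fun y _ => Finset.prod_nonneg fun c _ => GW_nonneg w hw _ (hAt y c) B hden _)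
        (Finset.mem_univ y)
    calc (X : ℝ) = ∑ _N ∈ range X, (1 : ℝ) := by simp
      _ ≤ _ := Finset.sum_le_sum h1
  linarith

/-- the phases of polynomials with an irrational coefficient of degree at least two are dissociated -/
theorem dissoc_poly (P : ℝ[X]) (hP : ∃ t, 2 ≤ t ∧ Irrational (P.coeff t)) :
    Dissoc (fun k : ℕ => e (P.eval (k : ℝ))) := by
  classical
  obtain ⟨t, ht, hirr, hmax⟩ : ∃ t, 2 ≤ t ∧ Irrational (P.coeff t) ∧
      ∀ s, t < s → ¬ Irrational (P.coeff s) := by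
    have hfin : ∀ j, Irrational (P.coeff j) → j ≤ P.natDegree := by
      intro j hj
      by_contra hcon
      rw [Polynomial.coeff_eq_zero_of_natDegree_lt (by omega)] at hj
      exact hj.ne_zero rfl
    obtain ⟨t₀, ht₀, hirr₀⟩ := hP
    have hne : (((Finset.range (P.natDegree + 1)).filter fun j => 2 ≤ j ∧ Irrational (P.coeff j))).Nonempty :=
      ⟨t₀, Finset.mem_filter.mpr ⟨Finset.mem_range.mpr (by have := hfin t₀ hirr₀; omega), ht₀, hirr₀⟩⟩
    set t := Finset.max' _ hne with ht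
    have hmem := Finset.max'_mem _ hne
    rw [← ht] at hmem
    obtain ⟨_, h2, h3⟩ := Finset.mem_filter.mp hmem
    refine ⟨t, h2, h3, fun s hs hirr => ?_⟩
    have h4 : s ∈ (Finset.range (P.natDegree + 1)).filter fun j => 2 ≤ j ∧ Irrational (P.coeff j) :=
      Finset.mem_filter.mpr ⟨Finset.mem_range.mpr (by have := hfin s hirr; omega), by omega, hirr⟩
    have h5 := Finset.le_max' _ s h4
    omega
  intro q r L n0 u hu
  refine poly_avg q r L P t ht hirr (fun s hs => ?_) n0 u hu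
  have h1 := hmax s hs
  unfold Irrational at h1
  push Not at h1
  obtain ⟨ρ, hρ⟩ := h1
  exact ⟨ρ, hρ.symm⟩

end Pool.Agent.Y844.CP
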