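import Mathlib

/-!
Periodic weights: products of translates of `χ₋₄ (odd part of n)` have bounded sums against every periodic weight.
-/

set_option autoImplicit false

namespace Pool.Agent.Y844.CP

open Finset

/-- the completely multiplicative function `n ↦ χ₋₄ (odd part of n)` -/
def g (n : ℕ) : ℤ := if ordCompl[2] n % 4 = 3 then -1 else 1

theorem g_odd {n : ℕ} (hn : n % 2 = 1) : g n = if n % 4 = 3 then -1 else 1 := by
  unfold g
  have : ¬ 2 ∣ n := by omega
  rw [Nat.factorization_eq_zero_of_not_dvd this, pow_zero, Nat.div_one]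

theorem g_pm (n : ℕ) : g n = 1 ∨ g n = -1 := by
  unfold g
  split_ifs
  · right; rfl
  · left; rfl

theorem g_sq (n : ℕ) : g n * g n = 1 := by
  rcases g_pm n with h | h <;> rw [h] <;> norm_num

theorem odd_part' {m : ℕ} (hm : 1 ≤ m) : ordCompl[2] m % 2 = 1 := by
  have h := Nat.not_dvd_ordCompl Nat.prime_two (n := m) (by omega)
  omega

theorem g_mul (m n : ℕ) (hm : 1 ≤ m) (hn : 1 ≤ n) : g (m * n) = g m * g n := by
  unfold g
  rw [Nat.ordCompl_mul]
  have h1 := odd_part' hm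
  have h2 := odd_part' hn
  set x := ordCompl[2] m
  set y := ordCompl[2] n
  have h3 : x % 4 = 1 ∨ x % 4 = 3 := by omega
  have h4 : y % 4 = 1 ∨ y % 4 = 3 := by omega
  rcases h3 with h3 | h3 <;> rcases h4 with h4 | h4 <;>
    simp [Nat.mul_mod, h3, h4]

theorem g_two_mul (n : ℕ) : g (2 * n) = g n := by
  rcases Nat.eq_zero_or_pos n with rfl | hn
  · rfl
  · rw [g_mul 2 n (by norm_num) hn]
    have : g 2 = 1 := by
      unfold g
      rw [Nat.Prime.factorization_self Nat.prime_two]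
      norm_num
    rw [this, one_mul]

theorem g_odd_add (z o : ℕ) (ho : o % 2 = 1) : g (2 * z + o) = g o * (-1) ^ z := by
  rw [g_odd (n := 2 * z + o) (by omega), g_odd ho]
  rcases Nat.even_or_odd' z with ⟨y, rfl | rfl⟩
  · have h1 : ((-1 : ℤ)) ^ (2 * y) = 1 := by rw [pow_mul]; norm_num
    rw [h1, mul_one]
    have h2 : (2 * (2 * y) + o) % 4 = o % 4 := by omega
    rw [h2]
  · have h1 : ((-1 : ℤ)) ^ (2 * y + 1) = -1 := by rw [pow_succ, pow_mul]; norm_num
    rw [h1]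
    by_cases h3 : o % 4 = 3
    · have h4 : (2 * (2 * y + 1) + o) % 4 ≠ 3 := by omega
      rw [if_neg h4, if_pos h3]
      norm_num
    · have h4 : (2 * (2 * y + 1) + o) % 4 = 3 := by omega
      rw [if_pos h4, if_neg h3]
      norm_num

/-- the product of `2 ^ (s + 1)` translates -/
def FF (m s x : ℕ) : ℤ := ∏ j ∈ range (2 ^ (s + 1)), g (x + m * j)

theorem prod_range_two_mul (f : ℕ → ℤ) (n : ℕ) :
    ∏ j ∈ range (2 * n), f j = ∏ i ∈ range n, (f (2 * i) * f (2 * i + 1)) := by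
  induction n with
  | zero => simp
  | succ n ih =>
    have e1 : 2 * (n + 1) = 2 * n + 1 + 1 := by ring
    rw [e1, Finset.prod_range_succ, Finset.prod_range_succ, ih, Finset.prod_range_succ]
    ring

theorem prod_pm (u : ℕ → ℤ) (hu : ∀ i, u i * u i = 1) (n : ℕ) :
    ∏ i ∈ range n, u i = 1 ∨ ∏ i ∈ range n, u i = -1 := by
  rw [← mul_self_eq_one_iff, ← Finset.prod_mul_distrib]
  exact Finset.prod_eq_one fun i _ => hu i

theorem neg_one_pow_sq (n : ℕ) : ((-1 : ℤ)) ^ n * (-1) ^ n = 1 := by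
  rw [← mul_pow]; norm_num

theorem FF_step (m s c : ℕ) (hm : m % 2 = 1) (hc : 1 ≤ c) :
    ∃ κ : ℤ, (κ = 1 ∨ κ = -1) ∧ ∃ y, 1 ≤ y ∧ ∀ k, FF m (s + 1) (2 * k + c) = κ * FF m s (k + y) := by
  have hconst : ∀ (o a : ℕ), ∏ i ∈ range (2 ^ (s + 1)), (g o * (-1) ^ (a + m * i)) =
      ∏ i ∈ range (2 ^ (s + 1)), (g o * (-1) ^ (m * i)) := by
    intro o a
    have h1 : ∀ i ∈ range (2 ^ (s + 1)), g o * (-1) ^ (a + m * i) = (-1) ^ a * (g o * (-1) ^ (m * i)) := by
      intro i _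
      rw [pow_add]; ring
    rw [Finset.prod_congr rfl h1, Finset.prod_mul_distrib, Finset.prod_const, Finset.card_range,
      pow_succ 2 s, mul_comm (2 ^ s) 2, pow_mul]
    have h2 : (((-1 : ℤ)) ^ a) ^ 2 = 1 := by rw [sq]; exact neg_one_pow_sq a
    rw [h2, one_pow, one_mul]
  have hκ : ∀ o, ∏ i ∈ range (2 ^ (s + 1)), (g o * (-1) ^ (m * i)) = 1 ∨
      ∏ i ∈ range (2 ^ (s + 1)), (g o * (-1) ^ (m * i)) = -1 := by
    intro o
    refine prod_pm _ (fun i => ?_) _
    calc g o * (-1) ^ (m * i) * (g o * (-1) ^ (m * i)) =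
        (g o * g o) * ((-1) ^ (m * i) * (-1) ^ (m * i)) := by ring
      _ = 1 := by rw [g_sq, neg_one_pow_sq, one_mul]
  have hFF : ∀ x, FF m (s + 1) x = ∏ i ∈ range (2 ^ (s + 1)), (g (x + m * (2 * i)) * g (x + m * (2 * i + 1))) := by
    intro x
    unfold FF
    rw [pow_succ 2 (s + 1), mul_comm (2 ^ (s + 1)) 2, prod_range_two_mul]
  rcases Nat.even_or_odd' c with ⟨y, rfl | rfl⟩
  · refine ⟨_, hκ m, y, by omega, fun k => ?_⟩
    rw [hFF, Finset.prod_congr rfl (g := fun i => (g m * (-1) ^ (k + y + m * i)) * g (k + y + m * i)),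
      Finset.prod_mul_distrib, hconst m (k + y)]
    · rfl
    · intro i _
      have e1 : 2 * k + 2 * y + m * (2 * i) = 2 * (k + y + m * i) := by ring
      have e2 : 2 * k + 2 * y + m * (2 * i + 1) = 2 * (k + y + m * i) + m := by ring
      rw [e1, e2, g_two_mul, g_odd_add _ _ hm, mul_comm]
  · obtain ⟨v, hv⟩ : ∃ v, m + 1 = 2 * v := ⟨(m + 1) / 2, by omega⟩
    refine ⟨_, hκ 1, y + v, by omega, fun k => ?_⟩
    rw [hFF, Finset.prod_congr rfl (g := fun i => (g 1 * (-1) ^ (k + y + m * i)) * g (k + (y + v) + m * i)),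
      Finset.prod_mul_distrib, hconst 1 (k + y)]
    · rfl
    · intro i _
      have e1 : 2 * k + (2 * y + 1) + m * (2 * i) = 2 * (k + y + m * i) + 1 := by ring
      have e2 : 2 * k + (2 * y + 1) + m * (2 * i + 1) = 2 * (k + (y + v) + m * i) := by
        have : 2 * k + (2 * y + 1) + m * (2 * i + 1) = 2 * k + 2 * y + 2 * (m * i) + (m + 1) := by ring
        rw [this, hv]; ring
      rw [e1, e2, g_two_mul, g_odd_add _ _ (by norm_num)]

theorem sum_range_split (h : ℕ → ℂ) (n : ℕ) :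
    ∑ k ∈ range n, h k = ∑ i ∈ range ((n + 1) / 2), h (2 * i) + ∑ i ∈ range (n / 2), h (2 * i + 1) := by
  induction n with
  | zero => simp
  | succ n ih =>
    rw [Finset.sum_range_succ, ih]
    rcases Nat.even_or_odd' n with ⟨y, rfl | rfl⟩
    · have e1 : (2 * y + 1) / 2 = y := by omega
      have e2 : (2 * y + 1 + 1) / 2 = y + 1 := by omega
      have e3 : 2 * y / 2 = y := by omega
      rw [e1, e2, e3, Finset.sum_range_succ]
      ring
    · have e1 : (2 * y + 1 + 1) / 2 = y + 1 := by omega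
      have e2 : (2 * y + 1 + 1 + 1) / 2 = y + 1 := by omega
      have e3 : (2 * y + 1) / 2 = y := by omega
      rw [e1, e2, e3, Finset.sum_range_succ (fun i => h (2 * i + 1))]
      ring

theorem base_bound (m : ℕ) (hm : m % 2 = 1) (w : ℕ → ℂ) (hw : ∀ k, w (k + m) = w k) (C : ℝ)
    (hC : ∀ k, ‖w k‖ ≤ C) (x0 n : ℕ) :
    ‖∑ k ∈ range n, w k * ((FF m 0 (k + x0) : ℤ) : ℂ)‖ ≤ 2 * m * C := by
  have hFF : ∀ x, FF m 0 x = g x * g (x + m) := by
    intro x
    unfold FF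
    simp [Finset.prod_range_succ]
  set G : ℕ → ℂ := fun k => w k * ((FF m 0 (k + x0) : ℤ) : ℂ) with hG
  set Q : ℕ → ℂ := fun k => if (k + x0) % 2 = 0 then G k else 0 with hQ
  have hGn : ∀ k, ‖G k‖ ≤ C := by
    intro k
    simp only [hG]
    rw [norm_mul, hFF]
    have h1 : ‖((g (k + x0) * g (k + x0 + m) : ℤ) : ℂ)‖ = 1 := by
      rcases g_pm (k + x0) with h | h <;> rcases g_pm (k + x0 + m) with h' | h' <;> rw [h, h'] <;> simp
    rw [h1, mul_one]
    exact hC k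
  have hC0 : 0 ≤ C := (norm_nonneg _).trans (hC 0)
  have hQn : ∀ k, ‖Q k‖ ≤ C := by
    intro k
    simp only [hQ]
    split_ifs
    · exact hGn k
    · simpa using hC0
  have hpair : ∀ k, (k + x0) % 2 = 1 → G (k + m) = - G k := by
    intro k hk
    simp only [hG]
    rw [hw, hFF, hFF]
    have h1 : g (k + m + x0 + m) = - g (k + x0) := by
      have e1 : k + m + x0 + m = 2 * m + (k + x0) := by ring
      rw [e1, g_odd_add m (k + x0) hk]
      obtain ⟨v, hv⟩ : ∃ v, m = 2 * v + 1 := ⟨m / 2, by omega⟩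
      have h2 : ((-1 : ℤ)) ^ m = -1 := by rw [hv, pow_succ, pow_mul]; norm_num
      rw [h2]; ring
    have e2 : k + m + x0 = k + x0 + m := by ring
    rw [h1, e2]
    push_cast
    ring
  have hsplit : ∀ k, G k = Q k - Q (k + m) := by
    intro k
    simp only [hQ]
    by_cases hk : (k + x0) % 2 = 0
    · rw [if_pos hk, if_neg (by omega), sub_zero]
    · rw [if_neg hk, if_pos (by omega), hpair k (by omega)]
      ring
  have hsum : ∑ k ∈ range n, G k = ∑ k ∈ range m, Q k - ∑ k ∈ range m, Q (n + k) := by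
    have h1 : ∑ k ∈ range n, G k = ∑ k ∈ range n, Q k - ∑ k ∈ range n, Q (m + k) := by
      rw [← Finset.sum_sub_distrib]
      refine Finset.sum_congr rfl fun k _ => ?_
      rw [hsplit, add_comm m k]
    have h2 := Finset.sum_range_add Q n m
    have h3 := Finset.sum_range_add Q m n
    rw [add_comm m n] at h3
    rw [h1]
    linear_combination h3 - h2
  rw [hsum]
  refine (norm_sub_le _ _).trans ?_
  have h1 : ‖∑ k ∈ range m, Q k‖ ≤ m * C := by
    refine (norm_sum_le _ _).trans ((Finset.sum_le_sum fun k _ => hQn k).trans ?_)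
    simp
  have h2 : ‖∑ k ∈ range m, Q (n + k)‖ ≤ m * C := by
    refine (norm_sum_le _ _).trans ((Finset.sum_le_sum fun k _ => hQn (n + k)).trans ?_)
    simp
  linarith

theorem per_bound (m : ℕ) (hm : m % 2 = 1) (C : ℝ) : ∀ (s : ℕ) (w : ℕ → ℂ),
    (∀ k, w (k + 2 ^ s * m) = w k) → (∀ k, ‖w k‖ ≤ C) → ∀ x0 n : ℕ, 1 ≤ x0 →
    ‖∑ k ∈ range n, w k * ((FF m s (k + x0) : ℤ) : ℂ)‖ ≤ 2 * (2 ^ s * m : ℕ) * C := by
  intro s
  induction s with
  | zero =>
    intro w hw hC x0 n _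
    have := base_bound m hm w (fun k => by simpa using hw k) C hC x0 n
    simpa using this
  | succ s ih =>
    intro w hw hC x0 n hx0
    rw [sum_range_split]
    have hpart : ∀ c, c ≤ 1 → ∀ n', ‖∑ i ∈ range n', w (2 * i + c) * ((FF m (s + 1) (2 * i + c + x0) : ℤ) : ℂ)‖ ≤
        2 * (2 ^ s * m : ℕ) * C := by
      intro c _ n'
      obtain ⟨κ, hκ, y, hy, hk⟩ := FF_step m s (c + x0) hm (by omega)
      have h1 : ∑ i ∈ range n', w (2 * i + c) * ((FF m (s + 1) (2 * i + c + x0) : ℤ) : ℂ) =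
          (κ : ℂ) * ∑ i ∈ range n', w (2 * i + c) * ((FF m s (i + y) : ℤ) : ℂ) := by
        rw [Finset.mul_sum]
        refine Finset.sum_congr rfl fun i _ => ?_
        rw [add_assoc (2 * i) c x0, hk i]
        push_cast
        ring
      rw [h1, norm_mul]
      have h2 : ‖(κ : ℂ)‖ = 1 := by
        rcases hκ with h | h <;> rw [h] <;> simp
      rw [h2, one_mul]
      refine ih (fun i => w (2 * i + c)) (fun k => ?_) (fun k => hC _) y n' hy
      have e1 : 2 * (k + 2 ^ s * m) + c = 2 * k + c + 2 ^ (s + 1) * m := by ring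
      show w (2 * (k + 2 ^ s * m) + c) = w (2 * k + c)
      rw [e1, hw]
    refine (norm_add_le _ _).trans ?_
    have h1 := hpart 0 (by norm_num) ((n + 1) / 2)
    have h2 := hpart 1 le_rfl (n / 2)
    simp only [add_zero] at h1
    have h3 : (2 : ℝ) * ((2 ^ (s + 1) * m : ℕ) : ℝ) * C = 2 * ((2 ^ s * m : ℕ) : ℝ) * C + 2 * ((2 ^ s * m : ℕ) : ℝ) * C := by
      push_cast
      ring
    rw [h3]
    exact add_le_add h1 h2

/-- **Periodic weights.** For every period `M` there are `l ≥ 1` and shifts `h ≥ 1` such that the correlations of the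
completely multiplicative function `g` with these shifts have sums bounded by `2 M sup |w|` against every weight `w`
of period `M`, along all homogeneous progressions. -/
theorem periodic (M : ℕ) (hM : 1 ≤ M) : ∃ l : ℕ, 1 ≤ l ∧ ∃ h : Fin l → ℕ, (∀ j, 1 ≤ h j) ∧
    ∀ (w : ℕ → ℂ) (C : ℝ), (∀ k, w (k + M) = w k) → (∀ k, ‖w k‖ ≤ C) → ∀ d n : ℕ, 1 ≤ d →
      ‖∑ k ∈ Icc 1 n, w k * ∏ j, ((g (d * (k + h j)) : ℤ) : ℂ)‖ ≤ 2 * M * C := by
  obtain ⟨s, m, hm, rfl⟩ := Nat.exists_eq_two_pow_mul_odd (n := M) (by omega)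
  have hm' : m % 2 = 1 := Nat.odd_iff.mp hm
  refine ⟨2 ^ (s + 1), Nat.one_le_two_pow, fun j => 1 + m * (j : ℕ), fun j => Nat.le_add_right 1 _, ?_⟩
  intro w C hw hC d n hd
  have h1 : ∀ k, ∏ j : Fin (2 ^ (s + 1)), ((g (d * (k + 1 + (1 + m * (j : ℕ)))) : ℤ) : ℂ) =
      ((FF m s (k + 2) : ℤ) : ℂ) := by
    intro k
    unfold FF
    push_cast
    rw [← Fin.prod_univ_eq_prod_range (fun j => ((g (k + 2 + m * j) : ℤ) : ℂ)) (2 ^ (s + 1))]
    have h2 : ∀ j : Fin (2 ^ (s + 1)), ((g (d * (k + 1 + (1 + m * (j : ℕ)))) : ℤ) : ℂ) =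
        ((g d : ℤ) : ℂ) * ((g (k + 2 + m * (j : ℕ)) : ℤ) : ℂ) := by
      intro j
      have e1 : k + 1 + (1 + m * (j : ℕ)) = k + 2 + m * (j : ℕ) := by ring
      rw [e1, g_mul d _ hd (by omega)]
      push_cast
      ring
    rw [Finset.prod_congr rfl fun j _ => h2 j, Finset.prod_mul_distrib, Finset.prod_const,
      Finset.card_univ, Fintype.card_fin, pow_succ 2 s, mul_comm (2 ^ s) 2, pow_mul]
    have h3 : (((g d : ℤ) : ℂ)) ^ 2 = 1 := by
      rw [sq]
      exact_mod_cast g_sq d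
    rw [h3, one_pow, one_mul]
  have h2 : ∑ k ∈ Icc 1 n, w k * ∏ j : Fin (2 ^ (s + 1)), ((g (d * (k + (1 + m * (j : ℕ)))) : ℤ) : ℂ) =
      ∑ k ∈ range n, w (k + 1) * ((FF m s (k + 2) : ℤ) : ℂ) := by
    have h3 : ∑ k ∈ Icc 1 n, w k * ∏ j : Fin (2 ^ (s + 1)), ((g (d * (k + (1 + m * (j : ℕ)))) : ℤ) : ℂ) =
        ∑ k ∈ range n, w (k + 1) * ∏ j : Fin (2 ^ (s + 1)), ((g (d * (k + 1 + (1 + m * (j : ℕ)))) : ℤ) : ℂ) := by
      rw [Finset.range_eq_Ico, Finset.sum_Ico_add' (fun k => w k *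
        ∏ j : Fin (2 ^ (s + 1)), ((g (d * (k + (1 + m * (j : ℕ)))) : ℤ) : ℂ)) 0 n 1]
      rfl
    rw [h3]
    exact Finset.sum_congr rfl fun k _ => by rw [h1]
  rw [h2]
  exact per_bound m hm' C s (fun k => w (k + 1)) (fun k => by
    have e1 : k + 2 ^ s * m + 1 = k + 1 + 2 ^ s * m := by ring
    rw [e1, hw]) (fun k => hC _) 2 n (by norm_num)

end Pool.Agent.Y844.CP
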